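import Pool.Agent.V5helper50.SP.Stm

/-!
# Project SP, job GRW: growth of the perturbed powers
-/

set_option autoImplicit false

open Finset MeasureTheory

namespace Pool.Agent.V5helper7.SP

open Pool.Agent.V5helper51.MT (e g a G cube φ)
open Pool.Agent.V5helper50.SP

lemma pow_sub_bd (k i : ℕ) (hi : i < k) (x y : ℝ) (hx : 1 ≤ x) (hxy : x ≤ y) :
    x * (y ^ i - x ^ i) ≤ y ^ k - x ^ k := by
  obtain ⟨m, rfl⟩ := Nat.exists_eq_add_of_lt hi
  have hx0 : 0 ≤ x := by linarith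
  have hy0 : 0 ≤ y := by linarith
  have h1 : 0 ≤ y ^ i - x ^ i := sub_nonneg.2 (pow_le_pow_left₀ hx0 hxy i)
  have h2 : x ≤ x ^ (m + 1) := by
    calc x = x ^ 1 := (pow_one x).symm
      _ ≤ x ^ (m + 1) := pow_le_pow_right₀ hx (by omega)
  have h3 : x ^ (m + 1) ≤ y ^ (m + 1) := pow_le_pow_left₀ hx0 hxy _
  have h4 : y ^ (i + m + 1) = y ^ (m + 1) * y ^ i := by ring
  have h5 : x ^ (i + m + 1) = x ^ (m + 1) * x ^ i := by ring
  rw [h4, h5]
  have h6 : 0 ≤ y ^ i := by positivity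
  have h7 := mul_le_mul_of_nonneg_right h2 h1
  have h8 := mul_le_mul_of_nonneg_right h3 h6
  linarith

lemma g_diff (k : ℕ) (α : Fin (k - 1) → ℝ) (x y : ℝ) (hx : 1 ≤ x) (hxy : x ≤ y) :
    x * |g k α y - g k α x| ≤ (∑ j, |α j|) * (y ^ k - x ^ k) := by
  have h0 : 0 ≤ x := by linarith
  have e1 : g k α y - g k α x = ∑ j, α j * (y ^ ((j : ℕ) + 1) - x ^ ((j : ℕ) + 1)) := by
    unfold g
    rw [← Finset.sum_sub_distrib]
    exact Finset.sum_congr rfl fun j _ => by ring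
  rw [e1, Finset.sum_mul]
  calc x * |∑ j, α j * (y ^ ((j : ℕ) + 1) - x ^ ((j : ℕ) + 1))|
      ≤ x * ∑ j, |α j * (y ^ ((j : ℕ) + 1) - x ^ ((j : ℕ) + 1))| :=
        mul_le_mul_of_nonneg_left (Finset.abs_sum_le_sum_abs _ _) h0
    _ = ∑ j, |α j| * (x * (y ^ ((j : ℕ) + 1) - x ^ ((j : ℕ) + 1))) := by
        rw [Finset.mul_sum]
        refine Finset.sum_congr rfl fun j _ => ?_
        rw [abs_mul, abs_of_nonneg (sub_nonneg.2 (pow_le_pow_left₀ h0 hxy _))]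
        ring
    _ ≤ ∑ j, |α j| * (y ^ k - x ^ k) := by
        refine Finset.sum_le_sum fun j _ => mul_le_mul_of_nonneg_left ?_ (abs_nonneg _)
        exact pow_sub_bd k _ (by have := j.2; omega) x y hx hxy

lemma g_bd (k : ℕ) (α : Fin (k - 1) → ℝ) (x : ℝ) (hx : 1 ≤ x) :
    x * |g k α x| ≤ (∑ j, |α j|) * x ^ k := by
  have h0 : 0 ≤ x := by linarith
  unfold g
  rw [Finset.sum_mul]
  calc x * |∑ j, α j * x ^ ((j : ℕ) + 1)|
      ≤ x * ∑ j, |α j * x ^ ((j : ℕ) + 1)| :=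
        mul_le_mul_of_nonneg_left (Finset.abs_sum_le_sum_abs _ _) h0
    _ = ∑ j, |α j| * x ^ ((j : ℕ) + 2) := by
        rw [Finset.mul_sum]
        refine Finset.sum_congr rfl fun j _ => ?_
        rw [abs_mul, abs_of_nonneg (pow_nonneg h0 _)]
        ring
    _ ≤ ∑ j, |α j| * x ^ k := by
        refine Finset.sum_le_sum fun j _ => mul_le_mul_of_nonneg_left ?_ (abs_nonneg _)
        exact pow_le_pow_right₀ hx (by have := j.2; omega)

lemma a_cast (k q : ℕ) (α : Fin (k - 1) → ℝ) (x : ℕ) :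
    (a k q α x : ℝ) = (x : ℝ) ^ k + q * (⌊g k α x⌋ : ℝ) := by
  unfold a
  push_cast
  ring

theorem grow (k q : ℕ) (hk : 2 ≤ k) (hq : 1 ≤ q) (α : Fin (k - 1) → ℝ) :
    ∃ x₀ : ℕ, 1 ≤ x₀ ∧ (∀ x : ℕ, x₀ ≤ x → (x : ℝ) ^ k / 2 ≤ a k q α x ∧ (a k q α x : ℝ) ≤ 2 * (x : ℝ) ^ k) ∧
    ∀ x y : ℕ, x₀ ≤ x → x < y → a k q α x < a k q α y := by
  set A : ℝ := ∑ j, |α j| with hA
  have hA0 : 0 ≤ A := Finset.sum_nonneg fun _ _ => abs_nonneg _
  have hq0 : (1 : ℝ) ≤ q := by exact_mod_cast hq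
  set T : ℝ := q * (A + 1) with hT
  have hT0 : 0 < T := by positivity
  have key : ∀ x : ℕ, ⌈2 * T⌉₊ + 1 ≤ x → (1 : ℝ) ≤ x ∧ 2 * T ≤ x := by
    intro x hx
    have h1 : ((⌈2 * T⌉₊ + 1 : ℕ) : ℝ) ≤ x := by exact_mod_cast hx
    push_cast at h1
    have h2 := Nat.le_ceil (2 * T)
    have h3 : (0 : ℝ) ≤ (⌈2 * T⌉₊ : ℝ) := Nat.cast_nonneg _
    exact ⟨by linarith, by linarith⟩
  refine ⟨⌈2 * T⌉₊ + 1, by omega, ?_, ?_⟩
  · intro x hx
    obtain ⟨h1, h2⟩ := key x hx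
    have h3 := g_bd k α x h1
    rw [← hA] at h3
    have hxk : (x : ℝ) ≤ (x : ℝ) ^ k := by
      calc (x : ℝ) = (x : ℝ) ^ 1 := (pow_one _).symm
        _ ≤ (x : ℝ) ^ k := pow_le_pow_right₀ h1 (by omega)
    have hx0 : (0 : ℝ) < x := by linarith
    have hfl : |(⌊g k α x⌋ : ℝ)| ≤ |g k α x| + 1 := by
      have f1 := Int.floor_le (g k α x)
      have f2 := Int.lt_floor_add_one (g k α x)
      have f3 := le_abs_self (g k α x)
      have f4 := neg_abs_le (g k α x)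
      rw [abs_le]
      constructor <;> linarith
    have h4 : (x : ℝ) * |(q : ℝ) * (⌊g k α x⌋ : ℝ)| ≤ x * ((x : ℝ) ^ k / 2) := by
      rw [abs_mul, abs_of_nonneg (by linarith : (0 : ℝ) ≤ q)]
      have h5 : (x : ℝ) * (q * |(⌊g k α x⌋ : ℝ)|) ≤ x * (q * (|g k α x| + 1)) := by gcongr
      have h6 : (x : ℝ) * (q * (|g k α x| + 1)) = q * (x * |g k α x| + x) := by ring
      have h7 : (q : ℝ) * (x * |g k α x| + x) ≤ q * (A * (x : ℝ) ^ k + (x : ℝ) ^ k) := by gcongr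
      have h8 : (q : ℝ) * (A * (x : ℝ) ^ k + (x : ℝ) ^ k) = T * (x : ℝ) ^ k := by rw [hT]; ring
      have h9 : T * (x : ℝ) ^ k ≤ (x / 2) * (x : ℝ) ^ k :=
        mul_le_mul_of_nonneg_right (by linarith) (by positivity)
      linarith
    have h10 : |(q : ℝ) * (⌊g k α x⌋ : ℝ)| ≤ (x : ℝ) ^ k / 2 := le_of_mul_le_mul_left h4 hx0
    rw [abs_le] at h10
    rw [a_cast]
    have hpos : (0 : ℝ) ≤ (x : ℝ) ^ k := by positivity
    constructor <;> linarith [h10.1, h10.2]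
  · intro x y hx hxy
    obtain ⟨h1, h2⟩ := key x hx
    have hxy1 : (x : ℝ) + 1 ≤ y := by exact_mod_cast hxy
    have hx0 : (0 : ℝ) < x := by linarith
    have h3 := g_diff k α x y h1 (by linarith)
    rw [← hA] at h3
    set D : ℝ := (y : ℝ) ^ k - (x : ℝ) ^ k with hD
    have hDx : (x : ℝ) ≤ D := by
      have := pow_sub_bd k 1 (by omega) x y h1 (by linarith)
      rw [pow_one, pow_one, ← hD] at this
      have h5 : (x : ℝ) * 1 ≤ x * (y - x) := by gcongr; linarith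
      linarith
    have hD0 : 0 < D := by linarith
    have f1 := Int.floor_le (g k α x)
    have f2 := Int.lt_floor_add_one (g k α y)
    have f3 := neg_abs_le (g k α y - g k α x)
    have h4 : (⌊g k α x⌋ : ℝ) - ⌊g k α y⌋ ≤ |g k α y - g k α x| + 1 := by linarith
    have h5 : (x : ℝ) * (q * ((⌊g k α x⌋ : ℝ) - ⌊g k α y⌋)) ≤ x * (q * (|g k α y - g k α x| + 1)) := by
      gcongr
    have h6 : (x : ℝ) * (q * (|g k α y - g k α x| + 1)) = q * (x * |g k α y - g k α x| + x) := by ring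
    have h7 : (q : ℝ) * (x * |g k α y - g k α x| + x) ≤ q * (A * D + D) := by gcongr
    have h8 : (q : ℝ) * (A * D + D) = T * D := by rw [hT]; ring
    have h9 : T * D ≤ (x / 2) * D := mul_le_mul_of_nonneg_right (by linarith) hD0.le
    have h10 : (x : ℝ) * (q * ((⌊g k α x⌋ : ℝ) - ⌊g k α y⌋)) ≤ x * (D / 2) := by linarith
    have h11 := le_of_mul_le_mul_left h10 hx0
    have h12 : (a k q α x : ℝ) < a k q α y := by
      rw [a_cast, a_cast]
      have : (q : ℝ) * ((⌊g k α x⌋ : ℝ) - ⌊g k α y⌋) = q * (⌊g k α x⌋ : ℝ) - q * (⌊g k α y⌋ : ℝ) := by ring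
      linarith
    exact_mod_cast h12

theorem t_GRW : S_GRW := by
  intro k q hk hq α
  obtain ⟨x₀, hx₀, hgr, hmo⟩ := grow k q hk hq α
  have hB : ∃ B : ℕ, ∀ x : ℕ, -(B : ℤ) ≤ a k q α x := by
    refine ⟨∑ x ∈ range x₀, (a k q α x).natAbs, fun x => ?_⟩
    rcases lt_or_ge x x₀ with h | h
    · have h1 : (a k q α x).natAbs ≤ ∑ x ∈ range x₀, (a k q α x).natAbs :=
        Finset.single_le_sum (f := fun x => (a k q α x).natAbs) (fun _ _ => Nat.zero_le _)
          (Finset.mem_range.2 h)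
      have h2 : ((a k q α x).natAbs : ℤ) ≤ ((∑ x ∈ range x₀, (a k q α x).natAbs : ℕ) : ℤ) := by
        exact_mod_cast h1
      omega
    · have h1 := (hgr x h).1
      have h2 : (0 : ℝ) ≤ (x : ℝ) ^ k / 2 := by positivity
      have h3 : (0 : ℝ) ≤ (a k q α x : ℝ) := h2.trans h1
      have h4 : (0 : ℤ) ≤ a k q α x := by exact_mod_cast h3
      have h5 : (0 : ℤ) ≤ ((∑ x ∈ range x₀, (a k q α x).natAbs : ℕ) : ℤ) := Int.natCast_nonneg _
      linarith
  obtain ⟨B, hB⟩ := hB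
  have hsum : ∀ (d : ℕ) (x : Fin d → ℕ) (n : ℤ), ∑ i, a k q α (x i) = n →
      ∀ i, a k q α (x i) ≤ n + d * B := by
    intro d x n h i
    have h1 : ∑ i, (a k q α (x i) + B) = n + d * B := by
      rw [Finset.sum_add_distrib, h]
      simp
    have h2 : a k q α (x i) + B ≤ ∑ i, (a k q α (x i) + B) :=
      Finset.single_le_sum (f := fun i => a k q α (x i) + (B : ℤ))
        (fun i _ => by have := hB (x i); show (0 : ℤ) ≤ a k q α (x i) + (B : ℤ); linarith)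
        (Finset.mem_univ i)
    have h3 : (0 : ℤ) ≤ B := Int.natCast_nonneg _
    linarith
  refine ⟨⟨x₀, hx₀, hgr, hmo⟩, ⟨B, hB⟩, ?_, ?_⟩
  · intro d ρ n
    refine Set.Finite.subset
      (Fintype.piFinset fun _ : Fin d => range (x₀ + 2 * (n + d * B).toNat + 1)).finite_toSet ?_
    rintro x ⟨-, hx⟩
    rw [Finset.mem_coe, Fintype.mem_piFinset]
    intro i
    rw [Finset.mem_range]
    have h1 := hsum d x n hx i
    rcases lt_or_ge (x i) x₀ with h | h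
    · omega
    · have h2 := (hgr (x i) h).1
      have h3 : (1 : ℝ) ≤ x i := by exact_mod_cast hx₀.trans h
      have h4 : (x i : ℝ) ≤ (x i : ℝ) ^ k := by
        calc (x i : ℝ) = (x i : ℝ) ^ 1 := (pow_one _).symm
          _ ≤ (x i : ℝ) ^ k := pow_le_pow_right₀ h3 (by omega)
      have h5 : (x i : ℝ) ≤ 2 * (a k q α (x i) : ℝ) := by linarith
      have h6 : (x i : ℤ) ≤ 2 * a k q α (x i) := by exact_mod_cast h5
      omega
  · intro d ρ
    refine ⟨-(d * B : ℤ), fun n hn => ?_⟩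
    unfold R
    have : {x : Fin d → ℕ | (∀ i, x i % q = ρ i % q) ∧ ∑ i, a k q α (x i) = n} = ∅ := by
      ext x
      simp only [Set.mem_setOf_eq, Set.mem_empty_iff_false, iff_false, not_and]
      intro _ h
      have h1 : -(d * B : ℤ) ≤ ∑ i, a k q α (x i) := by
        have h2 : ∑ _i : Fin d, (-(B : ℤ)) ≤ ∑ i, a k q α (x i) :=
          Finset.sum_le_sum fun i _ => hB (x i)
        simp at h2
        linarith
      linarith
    rw [this, Set.ncard_empty]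


end Pool.Agent.V5helper7.SP
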